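import Pool.Agent.Helper8.RZ2.R2

/-! # RZ2-R2: radial functions on the plane (proved in `Pool.Agent.Helper8.RZ2.R2`) -/

set_option autoImplicit false

namespace Pool.Agent.Helper42.RZ2

alias radial := Pool.Agent.Helper8.RZ2.radial

alias integrable_ph := Pool.Agent.Helper8.RZ2.integrable_ph

alias integral_ph := Pool.Agent.Helper8.RZ2.integral_ph

alias integral_ball := Pool.Agent.Helper8.RZ2.integral_ball

end Pool.Agent.Helper42.RZ2
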