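import Pool.Agent.Helper39.RZ2.R4a

/-! # RZ2-R4a: the regularised lattice sum as a sum of cell differences (proved in `Pool.Agent.Helper39.RZ2.R4a`) -/

set_option autoImplicit false

namespace Pool.Agent.Helper42.RZ2

alias summable_ph := Pool.Agent.Helper39.RZ2.summable_ph

alias RS_hasSum := Pool.Agent.Helper39.RZ2.RS_hasSum

end Pool.Agent.Helper42.RZ2
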