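import Pool.Agent.Helper42.RZ2.R9

/-! # RZ2-R9 (done): upper bound from periodic configurations, `M` planes; see `RZ2.R9` -/
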