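import Pool.Agent.Helper41.RZ2.R1

/-! # RZ2-R1: tiling of the plane by the cells of a lattice (proved in `Pool.Agent.Helper41.RZ2.R1`) -/

set_option autoImplicit false

namespace Pool.Agent.Helper42.RZ2

alias tiling := Pool.Agent.Helper41.RZ2.tiling

end Pool.Agent.Helper42.RZ2
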