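import Pool.Agent.Helper33.RZ2.R10

/-! # RZ2-R10: the constant is at most the damped energy of every periodic configuration (proved in `Pool.Agent.Helper33.RZ2.R10`) -/

set_option autoImplicit false

namespace Pool.Agent.Helper42.RZ2

alias upper_periodic := Pool.Agent.Helper33.RZ2.upper_periodic

end Pool.Agent.Helper42.RZ2
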