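import Pool.Agent.Helper9.RZ2.R12

/-! # RZ2-R12: the constant is at least the infimum of the torus energies (proved in `Pool.Agent.Helper9.RZ2.R12`) -/

set_option autoImplicit false

namespace Pool.Agent.Helper42.RZ2

alias lower_torus := Pool.Agent.Helper9.RZ2.lower_torus

end Pool.Agent.Helper42.RZ2
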