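import Pool.Agent.Helper57.RZ2.R4d

/-! # RZ2-R4d: the kernel of the unit torus (proved in `Pool.Agent.Helper57.RZ2.R4d`) -/

set_option autoImplicit false

namespace Pool.Agent.Helper42.RZ2

alias GG_tendsto := Pool.Agent.Helper57.RZ2.GG_tendsto

alias measurable_GG := Pool.Agent.Helper57.RZ2.measurable_GG

alias GG_bounds := Pool.Agent.Helper57.RZ2.GG_bounds

alias GG_integrable := Pool.Agent.Helper57.RZ2.GG_integrable

alias GG_mean := Pool.Agent.Helper57.RZ2.GG_mean

end Pool.Agent.Helper42.RZ2
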