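import Pool.Agent.Helper8.RZ2.R11b

/-! # RZ2-R11b: cutting the unit square into `N` strips (proved in `Pool.Agent.Helper8.RZ2.R11b`) -/

set_option autoImplicit false

namespace Pool.Agent.Helper42.RZ2

alias exists_torus_sectors := Pool.Agent.Helper8.RZ2.exists_torus_sectors

end Pool.Agent.Helper42.RZ2
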