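import Pool.Agent.Helper67.RZ2.R5

/-! # RZ2-R5: independent cells, general kernel (generalises RZ-S9) (proved in `Pool.Agent.Helper67.RZ2.R5`) -/

set_option autoImplicit false

namespace Pool.Agent.Helper42.RZ2

alias paste_gen := Pool.Agent.Helper67.RZ2.paste_gen

end Pool.Agent.Helper42.RZ2
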