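import Pool.Agent.Helper30.RZ2.R6

/-! # RZ2-R6: random half spaces, points of the unit ball (generalises RZ-S4) (proved in `Pool.Agent.Helper30.RZ2.R6`) -/

set_option autoImplicit false

namespace Pool.Agent.Helper42.RZ2

alias planes_ball := Pool.Agent.Helper30.RZ2.planes_ball

end Pool.Agent.Helper42.RZ2
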