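import Pool.Agent.Helper42.RZ2.R7

/-! # RZ2-R7: patches of the unit torus which are images of patches of the sphere (variant of RZ-S10) -/

set_option autoImplicit false

namespace Pool.Agent.Helper42.RZ2

alias exists_torus_patches := Pool.Agent.Helper42.RZ2.R7.exists_torus_patches

end Pool.Agent.Helper42.RZ2
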