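import Pool.Agent.Helper71.RZ2.R8

/-! # RZ2-R8: patches of the sphere which are images of flat patches (variant of RZ-S10) (proved in `Pool.Agent.Helper71.RZ2.R8`) -/

set_option autoImplicit false

namespace Pool.Agent.Helper42.RZ2

alias exists_flat_patches := Pool.Agent.Helper71.RZ2.exists_flat_patches

end Pool.Agent.Helper42.RZ2
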