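import Pool.Agent.Helper42.RZ2.R11

/-! # RZ2-R11 (done): pasting on the torus, `M` planes; see `RZ2.R11` -/
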