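import Pool.Agent.Helper50.RZ2.R1b

/-! # RZ2-R1b: randomly shifted periodic configurations: mean measure (proved in `Pool.Agent.Helper50.RZ2.R1b`) -/

set_option autoImplicit false

namespace Pool.Agent.Helper42.RZ2

alias shift_points := Pool.Agent.Helper50.RZ2.shift_points

end Pool.Agent.Helper42.RZ2
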