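import Pool.Agent.Helper91.RZ2.R3

/-! # RZ2-R3: value at a point minus mean over a centred cell: second differences (proved in `Pool.Agent.Helper91.RZ2.R3`) -/

set_option autoImplicit false

namespace Pool.Agent.Helper42.RZ2

alias cell_diff := Pool.Agent.Helper91.RZ2.cell_diff

end Pool.Agent.Helper42.RZ2
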