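import Pool.Agent.Helper59.RZ2.R4b

/-! # RZ2-R4b: uniform bounds for the cell differences (proved in `Pool.Agent.Helper59.RZ2.R4b`) -/

set_option autoImplicit false

namespace Pool.Agent.Helper42.RZ2

alias diff_bound := Pool.Agent.Helper59.RZ2.diff_bound

alias cell_bound := Pool.Agent.Helper59.RZ2.cell_bound

end Pool.Agent.Helper42.RZ2
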