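import Pool.Agent.Helper51.RZ2.R4c

/-! # RZ2-R4c: the limit of the regularised lattice sums exists; uniform bounds for the square lattice (proved in `Pool.Agent.Helper51.RZ2.R4c`) -/

set_option autoImplicit false

namespace Pool.Agent.Helper42.RZ2

alias RS_tendsto := Pool.Agent.Helper51.RZ2.RS_tendsto

alias RS_bounds := Pool.Agent.Helper51.RZ2.RS_bounds

end Pool.Agent.Helper42.RZ2
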